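import Pool.Agent.H.MP_25c86d_nt.A

set_option autoImplicit false
open Polynomial

namespace Pool.Agent.Results.MP_25c86d_nt.Odd

noncomputable def rule (σ n : ℕ) (a b : ZMod n) : AdjoinRoot (X ^ σ - 1 : (ZMod n)[X]) :=
  AdjoinRoot.of _ a + AdjoinRoot.of _ b * AdjoinRoot.root _

noncomputable def period (σ n : ℕ) (a b : ZMod n) : ℕ :=
  sInf {k | 1 ≤ k ∧ ∃ l : ℕ, rule σ n a b ^ (k + l) = rule σ n a b ^ l}

noncomputable def maxPeriod (σ n : ℕ) : ℕ :=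
  sSup (Set.range fun c : ZMod n × ZMod n => period σ n c.1 c.2)

theorem result (p : ℕ) (hp : p.Prime)
    (h : ∃ σ m : ℕ, 1 ≤ σ ∧ 2 ≤ m ∧ maxPeriod σ (p ^ m) < p * maxPeriod σ (p ^ (m - 1))) : p = 2 := by
  obtain ⟨σ, m, h1, h2, h⟩ := h
  obtain ⟨m, rfl⟩ : ∃ k, m = k + 1 + 1 := ⟨m - 2, by omega⟩
  have := Fact.mk hp
  have : NeZero σ := ⟨by omega⟩
  exact hp.eq_two_or_odd'.resolve_right fun ho =>
    h.ne (Pool.Agent.H.MP_25c86d_nt.main (σ := σ) ho m)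

end Pool.Agent.Results.MP_25c86d_nt.Odd
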